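import Pool.Agent.H851R2.SM.RhoB

set_option autoImplicit false

/-! Tasks T9b2 (`rho_supp`, `rho_zero`) and T9b4 (`rho_one_two`) of `h306_tasks`. -/

namespace Pool.Agent.H851R2.SM

open Finset Pool.Agent.H306R2 Pool.Agent.H306R2.SM

theorem rho_supp (h e : ℕ) (hh : 1 ≤ h) (he : rho h e ≠ 0) : e ∈ (h ^ 3).divisors := by
  have h0 : h ≠ 0 := by omega
  unfold rho at he
  split_ifs at he with hc
  · obtain ⟨he0, hsub⟩ := hc
    rw [Nat.mem_divisors]
    refine ⟨?_, pow_ne_zero _ h0⟩
    rw [← Nat.factorization_le_iff_dvd he0 (pow_ne_zero _ h0)]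
    intro p
    by_cases hp : p ∈ h.primeFactors
    · rw [Finset.prod_ne_zero_iff] at he
      have h1 := he p hp
      have h2 : 1 ≤ h.factorization p := by
        rw [← Nat.support_factorization, Finsupp.mem_support_iff] at hp
        omega
      have h3 : e.factorization p ≤ h.factorization p + 2 := by
        by_contra hcon
        apply h1
        unfold rloc
        rw [if_neg (by omega), if_neg (by omega), if_neg (by omega), if_neg (by omega)]
      rw [Nat.factorization_pow]
      simp only [Finsupp.coe_smul, Pi.smul_apply, smul_eq_mul]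
      omega
    · have h1 : p ∉ e.primeFactors := fun h => hp (hsub h)
      rw [← Nat.support_factorization, Finsupp.notMem_support_iff] at h1
      rw [h1]
      exact Nat.zero_le _
  · exact absurd rfl he

lemma psi_eq (h : ℕ) : psi h = ∏ p ∈ h.primeFactors, b0 (1 / p) (h.factorization p) := rfl

lemma cast_self (h : ℕ) (hh : 1 ≤ h) : (h : ℝ) = ∏ p ∈ h.primeFactors, (p : ℝ) ^ h.factorization p := by
  conv_lhs => rw [eq_prod_pow h (by omega) h.primeFactors subset_rfl]
  push_cast
  rfl

lemma psi_div (h : ℕ) (hh : 1 ≤ h) :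
    ∏ p ∈ h.primeFactors, ((1 / (p : ℝ)) ^ h.factorization p * b0 (1 / p) (h.factorization p)) =
      psi h / h := by
  rw [prod_mul_distrib, ← psi_eq, mul_comm, div_eq_mul_inv]
  congr 1
  conv_rhs => rw [cast_self h hh]
  rw [← Finset.prod_inv_distrib]
  apply prod_congr rfl
  intro p _
  rw [one_div, inv_pow]

lemma fact_pos (h p : ℕ) (hp : p ∈ h.primeFactors) : 1 ≤ h.factorization p := by
  rw [← Nat.support_factorization, Finsupp.mem_support_iff] at hp
  omega

/-- `rho(h,e)/e` times a product weight -/
lemma rho_weight (h : ℕ) (hh : 1 ≤ h) (w : ℕ → ℕ → ℝ) :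
    ∑ e ∈ (h ^ 3).divisors, rho h e / (e : ℝ) * ∏ p ∈ h.primeFactors, w p (e.factorization p) =
      ∏ p ∈ h.primeFactors, ∑ v ∈ range (3 * h.factorization p + 1),
        rloc p (h.factorization p) v * (w p v * (1 / (p : ℝ)) ^ v) := by
  rw [← sum_cube h hh (fun p v => rloc p (h.factorization p) v * (w p v * (1 / (p : ℝ)) ^ v))]
  apply sum_congr rfl
  intro e he
  rw [rho_eq h e hh he, cast_eq_prod h e hh he, div_eq_mul_inv, ← Finset.prod_inv_distrib,
    ← prod_mul_distrib, ← prod_mul_distrib]
  apply prod_congr rfl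
  intro p _
  rw [one_div, inv_pow]
  ring

theorem rho_zero (h : ℕ) (hh : 1 ≤ h) :
    ∑ e ∈ (h ^ 3).divisors, rho h e / (e : ℝ) = psi h / h := by
  have h1 := rho_weight h hh (fun _ _ => 1)
  simp only [prod_const_one, mul_one, one_mul] at h1
  rw [h1, ← psi_div h hh]
  apply prod_congr rfl
  intro p hp
  exact R_zero p _ (Nat.prime_of_mem_primeFactors hp) (fact_pos h p hp)

/-- the local first moment -/
noncomputable def A1 (p a : ℕ) : ℝ := a + b1 (1 / p) a / b0 (1 / p) a

/-- the local second moment -/
noncomputable def A2 (p a : ℕ) : ℝ :=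
  a ^ 2 + 2 * a * (b1 (1 / p) a / b0 (1 / p) a) + b2 (1 / p) a / b0 (1 / p) a

lemma z_bounds (p : ℕ) (hp : p.Prime) : 0 < 1 / (p : ℝ) ∧ 1 / (p : ℝ) ≤ 1 / 2 := by
  have hp2 : (2 : ℝ) ≤ p := by exact_mod_cast hp.two_le
  refine ⟨by positivity, ?_⟩
  exact one_div_le_one_div_of_le (by norm_num) hp2

lemma b0_lower (z a : ℝ) (hz1 : z ≤ 1 / 2) (ha : 0 ≤ a) : (a + 2) / 2 ≤ b0 z a := by
  unfold b0
  nlinarith

lemma b0_pos (p a : ℕ) (hp : p.Prime) : 0 < b0 (1 / p) a := by
  have h1 := b0_lower (1 / (p : ℝ)) a (z_bounds p hp).2 (Nat.cast_nonneg a)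
  have h2 : (0 : ℝ) ≤ a := Nat.cast_nonneg a
  linarith

lemma R_one' (p a : ℕ) (hp : p.Prime) (ha : 1 ≤ a) :
    ∑ v ∈ range (3 * a + 1), rloc p a v * ((v : ℝ) * (1 / (p : ℝ)) ^ v) =
      (1 / (p : ℝ)) ^ a * b0 (1 / p) a * A1 p a := by
  rw [R_one p a hp ha, A1]
  have := (b0_pos p a hp).ne'
  field_simp

lemma R_two' (p a : ℕ) (hp : p.Prime) (ha : 1 ≤ a) :
    ∑ v ∈ range (3 * a + 1), rloc p a v * ((v : ℝ) ^ 2 * (1 / (p : ℝ)) ^ v) =
      (1 / (p : ℝ)) ^ a * b0 (1 / p) a * A2 p a := by
  rw [R_two p a hp ha, A2]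
  have := (b0_pos p a hp).ne'
  field_simp

/-- weighted by `v_q(e)` -/
lemma rho_v (h : ℕ) (hh : 1 ≤ h) (q : ℕ) (hq : q ∈ h.primeFactors) :
    ∑ e ∈ (h ^ 3).divisors, rho h e / (e : ℝ) * (e.factorization q : ℝ) =
      psi h / h * A1 q (h.factorization q) := by
  have h1 := rho_weight h hh (fun p v => if p = q then (v : ℝ) else 1)
  have h2 : ∀ e : ℕ, ∏ p ∈ h.primeFactors, (if p = q then (e.factorization p : ℝ) else 1) =
      e.factorization q := by
    intro e
    rw [prod_ite_eq' h.primeFactors q (fun p => (e.factorization p : ℝ)), if_pos hq]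
  simp only [h2] at h1
  rw [h1, ← psi_div h hh]
  have h3 : A1 q (h.factorization q) =
      ∏ p ∈ h.primeFactors, (if p = q then A1 p (h.factorization p) else 1) := by
    rw [prod_ite_eq' h.primeFactors q (fun p => A1 p (h.factorization p)), if_pos hq]
  rw [h3, ← prod_mul_distrib]
  apply prod_congr rfl
  intro p hp
  have hpp := Nat.prime_of_mem_primeFactors hp
  have ha := fact_pos h p hp
  split_ifs with hpq
  · exact R_one' p _ hpp ha
  · simp only [one_mul, mul_one]
    exact R_zero p _ hpp ha

/-- weighted by `v_q(e) v_r(e)` -/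
lemma rho_vv (h : ℕ) (hh : 1 ≤ h) (q r : ℕ) (hq : q ∈ h.primeFactors) (hr : r ∈ h.primeFactors) :
    ∑ e ∈ (h ^ 3).divisors, rho h e / (e : ℝ) * ((e.factorization q : ℝ) * e.factorization r) =
      psi h / h * (A1 q (h.factorization q) * A1 r (h.factorization r) +
        if q = r then A2 q (h.factorization q) - A1 q (h.factorization q) ^ 2 else 0) := by
  have h1 := rho_weight h hh
    (fun p v => (if p = q then (v : ℝ) else 1) * (if p = r then (v : ℝ) else 1))
  have h2 : ∀ (q : ℕ) (_ : q ∈ h.primeFactors) (e : ℕ),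
      ∏ p ∈ h.primeFactors, (if p = q then (e.factorization p : ℝ) else 1) =
      e.factorization q := by
    intro q hq e
    rw [prod_ite_eq' h.primeFactors q (fun p => (e.factorization p : ℝ)), if_pos hq]
  simp only [prod_mul_distrib, h2 q hq, h2 r hr] at h1
  rw [h1, ← psi_div h hh]
  by_cases hqr : q = r
  · subst hqr
    rw [if_pos rfl]
    have h3 : A1 q (h.factorization q) * A1 q (h.factorization q) +
        (A2 q (h.factorization q) - A1 q (h.factorization q) ^ 2) =
        ∏ p ∈ h.primeFactors, (if p = q then A2 p (h.factorization p) else 1) := by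
      rw [prod_ite_eq' h.primeFactors q (fun p => A2 p (h.factorization p)), if_pos hq]
      ring
    rw [h3, ← prod_mul_distrib]
    apply prod_congr rfl
    intro p hp
    have hpp := Nat.prime_of_mem_primeFactors hp
    have ha := fact_pos h p hp
    split_ifs with hpq
    · rw [← R_two' p _ hpp ha]
      apply sum_congr rfl
      intro v _
      ring
    · simp only [one_mul, mul_one]
      exact R_zero p _ hpp ha
  · rw [if_neg hqr, add_zero]
    have h3 : ∀ (q : ℕ) (_ : q ∈ h.primeFactors), A1 q (h.factorization q) =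
        ∏ p ∈ h.primeFactors, (if p = q then A1 p (h.factorization p) else 1) := by
      intro q hq
      rw [prod_ite_eq' h.primeFactors q (fun p => A1 p (h.factorization p)), if_pos hq]
    rw [h3 q hq, h3 r hr, ← prod_mul_distrib, ← prod_mul_distrib]
    apply prod_congr rfl
    intro p hp
    have hpp := Nat.prime_of_mem_primeFactors hp
    have ha := fact_pos h p hp
    by_cases hpq : p = q
    · have hpr : p ≠ r := fun h => hqr (hpq.symm.trans h)
      simp only [if_pos hpq, if_neg hpr, mul_one]
      exact R_one' p _ hpp ha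
    · by_cases hpr : p = r
      · simp only [if_neg hpq, if_pos hpr, one_mul]
        exact R_one' p _ hpp ha
      · simp only [if_neg hpq, if_neg hpr, mul_one, one_mul]
        exact R_zero p _ hpp ha

/-- first moment -/
lemma S_one (h : ℕ) (hh : 1 ≤ h) :
    ∑ e ∈ (h ^ 3).divisors, rho h e * Real.log e / (e : ℝ) =
      psi h / h * ∑ q ∈ h.primeFactors, A1 q (h.factorization q) * Real.log q := by
  have hS' : ∀ p ∈ h.primeFactors, p.Prime := fun p hp => Nat.prime_of_mem_primeFactors hp
  calc ∑ e ∈ (h ^ 3).divisors, rho h e * Real.log e / (e : ℝ)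
      = ∑ e ∈ (h ^ 3).divisors, ∑ q ∈ h.primeFactors,
          (rho h e / (e : ℝ) * (e.factorization q : ℝ)) * Real.log q := by
        apply sum_congr rfl
        intro e he
        obtain ⟨he0, hsub⟩ := primeFactors_sub h e hh he
        rw [log_eq_sum e he0 _ hsub hS', mul_sum, sum_div]
        apply sum_congr rfl
        intro q _
        ring
    _ = ∑ q ∈ h.primeFactors, (psi h / h * A1 q (h.factorization q)) * Real.log q := by
        rw [sum_comm]
        apply sum_congr rfl
        intro q hq
        rw [← sum_mul, rho_v h hh q hq]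
    _ = _ := by
        rw [mul_sum]
        apply sum_congr rfl
        intro q _
        ring

/-- second moment -/
lemma S_two (h : ℕ) (hh : 1 ≤ h) :
    ∑ e ∈ (h ^ 3).divisors, rho h e * Real.log e ^ 2 / (e : ℝ) =
      psi h / h * ((∑ q ∈ h.primeFactors, A1 q (h.factorization q) * Real.log q) ^ 2 +
        ∑ q ∈ h.primeFactors, (A2 q (h.factorization q) - A1 q (h.factorization q) ^ 2) *
          Real.log q ^ 2) := by
  have hS' : ∀ p ∈ h.primeFactors, p.Prime := fun p hp => Nat.prime_of_mem_primeFactors hp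
  calc ∑ e ∈ (h ^ 3).divisors, rho h e * Real.log e ^ 2 / (e : ℝ)
      = ∑ e ∈ (h ^ 3).divisors, ∑ q ∈ h.primeFactors, ∑ r ∈ h.primeFactors,
          (rho h e / (e : ℝ) * ((e.factorization q : ℝ) * e.factorization r)) *
            (Real.log q * Real.log r) := by
        apply sum_congr rfl
        intro e he
        obtain ⟨he0, hsub⟩ := primeFactors_sub h e hh he
        rw [log_eq_sum e he0 _ hsub hS', sq, sum_mul_sum, mul_sum, sum_div]
        apply sum_congr rfl
        intro q _
        rw [mul_sum, sum_div]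
        apply sum_congr rfl
        intro r _
        ring
    _ = ∑ q ∈ h.primeFactors, ∑ r ∈ h.primeFactors,
          (psi h / h * (A1 q (h.factorization q) * A1 r (h.factorization r) +
            if q = r then A2 q (h.factorization q) - A1 q (h.factorization q) ^ 2 else 0)) *
            (Real.log q * Real.log r) := by
        rw [sum_comm]
        apply sum_congr rfl
        intro q hq
        rw [sum_comm]
        apply sum_congr rfl
        intro r hr
        rw [← sum_mul, rho_vv h hh q r hq hr]
    _ = _ := by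
        rw [sq, sum_mul_sum, ← sum_add_distrib, mul_sum]
        apply sum_congr rfl
        intro q hq
        have h5 : (A2 q (h.factorization q) - A1 q (h.factorization q) ^ 2) * Real.log q ^ 2 =
            ∑ r ∈ h.primeFactors, if q = r then
              (A2 r (h.factorization r) - A1 r (h.factorization r) ^ 2) * Real.log r ^ 2 else 0 := by
          rw [sum_ite_eq, if_pos hq]
        rw [h5, ← sum_add_distrib, mul_sum]
        apply sum_congr rfl
        intro r _
        split_ifs with hqr
        · subst hqr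
          ring
        · ring

end Pool.Agent.H851R2.SM
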