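import Pool.Agent.H851R2.SM.RhoC

set_option autoImplicit false

/-! Task T9b4 (`rho_one_two`) of `h306_tasks`. -/

namespace Pool.Agent.H851R2.SM

open Finset Pool.Agent.H306R2 Pool.Agent.H306R2.SM

/-- the local error -/
noncomputable def er (p a : ℕ) : ℝ :=
  (1 + Real.log p) ^ 2 * (if a = 1 then 1 / (p : ℝ) else (a : ℝ) ^ 2)

lemma er_nonneg (p a : ℕ) : 0 ≤ er p a := by
  unfold er
  split_ifs <;> positivity

lemma Em_eq (h : ℕ) : Em h = ∏ p ∈ h.primeFactors, (1 + er p (h.factorization p)) := rfl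

lemma one_add_sum_le {ι : Type*} (S : Finset ι) (f : ι → ℝ) (hf : ∀ i ∈ S, 0 ≤ f i) :
    1 + ∑ i ∈ S, f i ≤ ∏ i ∈ S, (1 + f i) := by
  classical
  induction S using Finset.induction_on with
  | empty => simp
  | insert a s ha ih =>
    rw [sum_insert ha, prod_insert ha]
    have h1 := ih fun i hi => hf i (mem_insert_of_mem hi)
    have h2 := hf a (mem_insert_self _ _)
    have h3 : 0 ≤ ∑ i ∈ s, f i := sum_nonneg fun i hi => hf i (mem_insert_of_mem hi)
    nlinarith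

lemma sum_er_le (h : ℕ) : 1 + ∑ p ∈ h.primeFactors, er p (h.factorization p) ≤ Em h := by
  rw [Em_eq]
  exact one_add_sum_le _ _ fun p _ => er_nonneg _ _

lemma b1_div (z a : ℝ) (hz0 : 0 < z) (hz1 : z ≤ 1 / 2) (ha : 0 ≤ a) :
    |b1 z a / b0 z a| ≤ 5 / 2 * a := by
  have h0 := b0_lower z a hz1 ha
  have h0' : 0 < b0 z a := by linarith
  rw [abs_div, abs_of_pos h0', div_le_iff₀ h0']
  have h1 : |b1 z a| ≤ 5 / 4 * a * (a + 2) := by
    unfold b1
    rw [abs_le]
    have h2 : 0 ≤ a * (a + 1) := by positivity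
    have h3 : 0 ≤ a * (a + 2) := by positivity
    constructor <;> nlinarith
  nlinarith

lemma b2_div (z a : ℝ) (hz0 : 0 < z) (hz1 : z ≤ 1 / 2) (ha : 0 ≤ a) :
    |b2 z a / b0 z a| ≤ 5 / 2 * a := by
  have h0 := b0_lower z a hz1 ha
  have h0' : 0 < b0 z a := by linarith
  rw [abs_div, abs_of_pos h0', div_le_iff₀ h0']
  have h1 : |b2 z a| ≤ 5 / 4 * a * (a + 2) := by
    unfold b2
    rw [abs_le]
    have h2 : 0 ≤ a * (a + 1) := by positivity
    have h3 : 0 ≤ a * (a + 2) := by positivity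
    constructor <;> nlinarith
  nlinarith

/-- local first moment -/
lemma A1_bound (p a : ℕ) (hp : p.Prime) (ha : 1 ≤ a) :
    |A1 p a * Real.log p - 3 / 2 * (a * Real.log p)| ≤ 3 * er p a := by
  obtain ⟨hz0, hz1⟩ := z_bounds p hp
  have hlog : 0 ≤ Real.log p := Real.log_nonneg (by exact_mod_cast hp.one_lt.le)
  have h1 : A1 p a * Real.log p - 3 / 2 * (a * Real.log p) =
      (b1 (1 / p) a / b0 (1 / p) a - a / 2) * Real.log p := by
    unfold A1; ring
  rw [h1, abs_mul, abs_of_nonneg hlog]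
  unfold er
  by_cases ha1 : a = 1
  · subst ha1
    rw [if_pos rfl]
    generalize 1 / (p : ℝ) = z at *
    have hz2 : 0 < 2 - z := by linarith
    have h2 : b1 z ((1 : ℕ) : ℝ) / b0 z ((1 : ℕ) : ℝ) - ((1 : ℕ) : ℝ) / 2 = -(3 / 2 * z / (2 - z)) := by
      unfold b1 b0
      have : 1 + ((1 : ℕ) : ℝ) * (1 - z) = 2 - z := by push_cast; ring
      rw [this]
      field_simp
      push_cast
      ring
    rw [h2, abs_neg, abs_of_nonneg (by positivity)]
    have h3 : 3 / 2 * z / (2 - z) ≤ z := by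
      rw [div_le_iff₀ hz2]; nlinarith
    calc 3 / 2 * z / (2 - z) * Real.log p ≤ z * Real.log p := by gcongr
      _ ≤ 3 * ((1 + Real.log p) ^ 2 * z) := by nlinarith [sq_nonneg (Real.log p), mul_nonneg hz0.le hlog, mul_nonneg hz0.le (sq_nonneg (Real.log p))]
  · rw [if_neg ha1]
    have ha' : (0 : ℝ) ≤ a := Nat.cast_nonneg a
    have ha2 : (1 : ℝ) ≤ a := by exact_mod_cast ha
    have h2 := b1_div (1 / (p : ℝ)) a hz0 hz1 ha'
    have h3 : |b1 (1 / (p : ℝ)) a / b0 (1 / (p : ℝ)) a - a / 2| ≤ 3 * a := by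
      calc _ ≤ |b1 (1 / (p : ℝ)) a / b0 (1 / (p : ℝ)) a| + |(a : ℝ) / 2| := abs_sub _ _
        _ ≤ 5 / 2 * a + a / 2 := by
            rw [abs_of_nonneg (show (0 : ℝ) ≤ a / 2 by positivity)]
            gcongr
        _ = 3 * a := by ring
    calc |b1 (1 / (p : ℝ)) a / b0 (1 / (p : ℝ)) a - a / 2| * Real.log p
        ≤ 3 * a * (1 + Real.log p) ^ 2 := by
          apply mul_le_mul h3 _ hlog (by positivity)
          nlinarith [sq_nonneg (Real.log p)]
      _ ≤ 3 * ((1 + Real.log p) ^ 2 * (a : ℝ) ^ 2) := by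
          nlinarith [mul_nonneg (sq_nonneg (1 + Real.log p)) (mul_nonneg ha' (sub_nonneg.mpr ha2))]

/-- local second moment -/
lemma A2_bound (p a : ℕ) (hp : p.Prime) (ha : 1 ≤ a) :
    |(A2 p a - A1 p a ^ 2) * Real.log p ^ 2 + 3 / 4 * Real.log p ^ 2| ≤ 10 * er p a := by
  obtain ⟨hz0, hz1⟩ := z_bounds p hp
  have hlog : 0 ≤ Real.log p := Real.log_nonneg (by exact_mod_cast hp.one_lt.le)
  have h1 : (A2 p a - A1 p a ^ 2) * Real.log p ^ 2 + 3 / 4 * Real.log p ^ 2 =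
      (b2 (1 / p) a / b0 (1 / p) a - (b1 (1 / p) a / b0 (1 / p) a) ^ 2 + 3 / 4) *
        Real.log p ^ 2 := by
    unfold A1 A2; ring
  rw [h1, abs_mul, abs_of_nonneg (sq_nonneg (Real.log p))]
  have hl2 : Real.log p ^ 2 ≤ (1 + Real.log p) ^ 2 := by nlinarith
  unfold er
  by_cases ha1 : a = 1
  · subst ha1
    rw [if_pos rfl]
    generalize 1 / (p : ℝ) = z at *
    have hz2 : 0 < 2 - z := by linarith
    have h2 : b2 z ((1 : ℕ) : ℝ) / b0 z ((1 : ℕ) : ℝ) -
        (b1 z ((1 : ℕ) : ℝ) / b0 z ((1 : ℕ) : ℝ)) ^ 2 + 3 / 4 =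
        -(3 / 4 * z * (8 - z) / (2 - z) ^ 2) := by
      unfold b2 b1 b0
      have : 1 + ((1 : ℕ) : ℝ) * (1 - z) = 2 - z := by push_cast; ring
      rw [this]
      field_simp
      push_cast
      ring
    have h8 : 0 ≤ 8 - z := by linarith
    rw [h2, abs_neg, abs_of_nonneg (by positivity)]
    have h3 : 3 / 4 * z * (8 - z) / (2 - z) ^ 2 ≤ 10 * z := by
      rw [div_le_iff₀ (by positivity)]
      have h4 : (9 : ℝ) / 4 ≤ (2 - z) ^ 2 := by nlinarith
      nlinarith [mul_nonneg hz0.le (sub_nonneg.mpr h4)]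
    calc 3 / 4 * z * (8 - z) / (2 - z) ^ 2 * Real.log p ^ 2
        ≤ 10 * z * (1 + Real.log p) ^ 2 := by
          apply mul_le_mul h3 hl2 (sq_nonneg _) (by positivity)
      _ = _ := by ring
  · rw [if_neg ha1]
    have ha' : (0 : ℝ) ≤ a := Nat.cast_nonneg a
    have ha2 : (1 : ℝ) ≤ a := by exact_mod_cast ha
    have h2 := b1_div (1 / (p : ℝ)) a hz0 hz1 ha'
    have h4 := b2_div (1 / (p : ℝ)) a hz0 hz1 ha'
    have h3 : |b2 (1 / (p : ℝ)) a / b0 (1 / (p : ℝ)) a -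
        (b1 (1 / (p : ℝ)) a / b0 (1 / (p : ℝ)) a) ^ 2 + 3 / 4| ≤ 10 * (a : ℝ) ^ 2 := by
      have h5 : (b1 (1 / (p : ℝ)) a / b0 (1 / (p : ℝ)) a) ^ 2 ≤ (5 / 2 * a) ^ 2 := by
        rw [← sq_abs]
        gcongr
      have h6 := abs_le.mp h4
      have h7 := sq_nonneg (b1 (1 / (p : ℝ)) a / b0 (1 / (p : ℝ)) a)
      rw [abs_le]
      constructor <;> nlinarith
    calc _ ≤ 10 * (a : ℝ) ^ 2 * (1 + Real.log p) ^ 2 := by
          apply mul_le_mul h3 hl2 (sq_nonneg _) (by positivity)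
      _ = _ := by ring

lemma psi_div_nonneg (h : ℕ) : 0 ≤ psi h / h := by
  apply div_nonneg _ (Nat.cast_nonneg h)
  rw [psi_eq]
  exact prod_nonneg fun p hp => (b0_pos p _ (Nat.prime_of_mem_primeFactors hp)).le

theorem rho_one_two : ∃ C : ℝ, 0 < C ∧ ∀ h : ℕ, 1 ≤ h →
    |(-∑ e ∈ (h ^ 3).divisors, rho h e * Real.log e / (e : ℝ)) +
        3 / 2 * Real.log h * (psi h / h)| ≤ C * Em h * (psi h / h) ∧
    |(∑ e ∈ (h ^ 3).divisors, rho h e * Real.log e ^ 2 / (e : ℝ)) -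
        ((3 / 2 * Real.log h) ^ 2 - 3 / 4 * Qf h) * (psi h / h)| ≤
      C * Em h ^ 2 * (1 + Real.log h) * (psi h / h) := by
  refine ⟨19, by norm_num, ?_⟩
  intro h hh
  rw [S_one h hh, S_two h hh]
  have hR := psi_div_nonneg h
  have hE := sum_er_le h
  have hlogh : 0 ≤ Real.log h := Real.log_nonneg (by exact_mod_cast hh)
  have hlog : Real.log h = ∑ p ∈ h.primeFactors, (h.factorization p : ℝ) * Real.log p :=
    log_eq_sum h (by omega) _ subset_rfl fun p hp => Nat.prime_of_mem_primeFactors hp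
  have hs0 : 0 ≤ ∑ p ∈ h.primeFactors, er p (h.factorization p) :=
    sum_nonneg fun p _ => er_nonneg _ _
  have h1 : |(∑ q ∈ h.primeFactors, A1 q (h.factorization q) * Real.log q) -
      3 / 2 * Real.log h| ≤ 3 * Em h := by
    conv_lhs => rw [hlog]
    rw [mul_sum, ← sum_sub_distrib]
    calc _ ≤ ∑ p ∈ h.primeFactors, 3 * er p (h.factorization p) := by
          refine (abs_sum_le_sum_abs _ _).trans (sum_le_sum fun p hp => ?_)
          exact A1_bound p _ (Nat.prime_of_mem_primeFactors hp) (fact_pos h p hp)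
      _ = 3 * ∑ p ∈ h.primeFactors, er p (h.factorization p) := by rw [mul_sum]
      _ ≤ 3 * Em h := by linarith
  have h2 : |(∑ q ∈ h.primeFactors, (A2 q (h.factorization q) - A1 q (h.factorization q) ^ 2) *
      Real.log q ^ 2) + 3 / 4 * Qf h| ≤ 10 * Em h := by
    unfold Qf
    rw [mul_sum, ← sum_add_distrib]
    calc _ ≤ ∑ p ∈ h.primeFactors, 10 * er p (h.factorization p) := by
          refine (abs_sum_le_sum_abs _ _).trans (sum_le_sum fun p hp => ?_)
          exact A2_bound p _ (Nat.prime_of_mem_primeFactors hp) (fact_pos h p hp)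
      _ = 10 * ∑ p ∈ h.primeFactors, er p (h.factorization p) := by rw [mul_sum]
      _ ≤ 10 * Em h := by linarith
  set X := ∑ q ∈ h.primeFactors, A1 q (h.factorization q) * Real.log q with hX
  set Y := ∑ q ∈ h.primeFactors, (A2 q (h.factorization q) - A1 q (h.factorization q) ^ 2) *
    Real.log q ^ 2 with hY
  set E := Em h with hEdef
  set L := Real.log h with hL
  have hE1 : 1 ≤ E := by linarith
  constructor
  · have h3 : -(psi h / h * X) + 3 / 2 * L * (psi h / h) = -((X - 3 / 2 * L) * (psi h / h)) := by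
      ring
    rw [h3, abs_neg, abs_mul, abs_of_nonneg hR]
    apply mul_le_mul_of_nonneg_right _ hR
    linarith
  · have h3 : psi h / h * (X ^ 2 + Y) - ((3 / 2 * L) ^ 2 - 3 / 4 * Qf h) * (psi h / h) =
        ((X - 3 / 2 * L) * (X + 3 / 2 * L) + (Y + 3 / 4 * Qf h)) * (psi h / h) := by
      ring
    rw [h3, abs_mul, abs_of_nonneg hR]
    apply mul_le_mul_of_nonneg_right _ hR
    have h4 : |X + 3 / 2 * L| ≤ 3 * E + 3 * L := by
      have h5 := abs_le.mp h1
      rw [abs_le]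
      constructor <;> linarith
    calc |(X - 3 / 2 * L) * (X + 3 / 2 * L) + (Y + 3 / 4 * Qf h)|
        ≤ |X - 3 / 2 * L| * |X + 3 / 2 * L| + |Y + 3 / 4 * Qf h| := by
          rw [← abs_mul]; exact abs_add_le _ _
      _ ≤ 3 * E * (3 * E + 3 * L) + 10 * E := by
          apply add_le_add _ h2
          exact mul_le_mul h1 h4 (abs_nonneg _) (by linarith)
      _ ≤ 19 * E ^ 2 * (1 + L) := by
          nlinarith [mul_nonneg (sub_nonneg.mpr hE1) hlogh, mul_nonneg (sub_nonneg.mpr hE1) (by linarith : (0:ℝ) ≤ E), mul_nonneg (mul_nonneg (by linarith : (0:ℝ) ≤ E) hlogh) (sub_nonneg.mpr hE1), mul_nonneg (by linarith : (0:ℝ) ≤ E) hlogh]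

end Pool.Agent.H851R2.SM
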