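import Pool.Agent.H851R2.SM.RhoC

set_option autoImplicit false

/-! Task T9b5 (`rho_abs`) of `h306_tasks`. -/

namespace Pool.Agent.H851R2.SM

open Finset Filter Topology Pool.Agent.H306R2 Pool.Agent.H306R2.SM

lemma nine_pow (a : ℕ) (ha : 1 ≤ a) : ((a : ℝ) + 2) ^ 2 ≤ 9 ^ a := by
  induction a, ha using Nat.le_induction with
  | base => norm_num
  | succ n hn ih =>
    push_cast
    rw [pow_succ (9 : ℝ) n]
    have h1 : (1 : ℝ) ≤ n := by exact_mod_cast hn
    nlinarith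

/-- product bound of divisor type -/
lemma prod_bound (K ε : ℝ) (hK : 1 ≤ K) (hε : 0 < ε) : ∃ C : ℝ, 0 < C ∧ ∀ h : ℕ, 1 ≤ h →
    ∏ p ∈ h.primeFactors, (K * ((h.factorization p : ℝ) + 2) ^ 2) ≤ C * (h : ℝ) ^ ε := by
  -- bound for small primes
  have hc : (1 : ℝ) < 2 ^ ε := Real.one_lt_rpow (by norm_num) hε
  obtain ⟨M0, hM0⟩ : ∃ M0 : ℝ, ∀ a : ℕ, ((a : ℝ)) ^ 2 / (2 ^ ε) ^ a ≤ M0 := by
    have h1 := tendsto_pow_const_div_const_pow_of_one_lt 2 hc
    obtain ⟨M0, h2⟩ := h1.bddAbove_range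
    exact ⟨M0, fun a => h2 ⟨a, rfl⟩⟩
  set M : ℝ := 1 + K * (|M0| * (2 ^ ε) ^ 2) with hM
  have hK0 : 0 < K := by linarith
  have hM1 : 1 ≤ M := by
    rw [hM]
    have : 0 ≤ K * (|M0| * (2 ^ ε) ^ 2) := by positivity
    linarith
  have hsmall : ∀ a : ℕ, K * ((a : ℝ) + 2) ^ 2 ≤ M * (2 ^ ε) ^ a := by
    intro a
    have h1 := hM0 (a + 2)
    have h2 : 0 < ((2 : ℝ) ^ ε) ^ (a + 2) := by positivity
    rw [div_le_iff₀ h2] at h1
    push_cast at h1
    have h3 : M0 ≤ |M0| := le_abs_self _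
    have h4 : ((a : ℝ) + 2) ^ 2 ≤ |M0| * (2 ^ ε) ^ 2 * (2 ^ ε) ^ a := by
      calc ((a : ℝ) + 2) ^ 2 ≤ M0 * (2 ^ ε) ^ (a + 2) := h1
        _ ≤ |M0| * (2 ^ ε) ^ (a + 2) := by gcongr
        _ = _ := by rw [pow_add]; ring
    have h5 : 0 < ((2 : ℝ) ^ ε) ^ a := by positivity
    calc K * ((a : ℝ) + 2) ^ 2 ≤ K * (|M0| * (2 ^ ε) ^ 2 * (2 ^ ε) ^ a) := by gcongr
      _ = (K * (|M0| * (2 ^ ε) ^ 2)) * (2 ^ ε) ^ a := by ring
      _ ≤ M * (2 ^ ε) ^ a := by
          apply mul_le_mul_of_nonneg_right _ h5.le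
          rw [hM]; linarith
  -- large primes
  obtain ⟨P0, hP0⟩ : ∃ P0 : ℕ, ∀ p : ℕ, P0 ≤ p → 9 * K ≤ (p : ℝ) ^ ε := by
    have h1 : Tendsto (fun n : ℕ => (n : ℝ) ^ ε) atTop atTop :=
      (tendsto_rpow_atTop hε).comp tendsto_natCast_atTop_atTop
    obtain ⟨P0, h2⟩ := eventually_atTop.mp (h1.eventually_ge_atTop (9 * K))
    exact ⟨P0, h2⟩
  have hloc : ∀ p a : ℕ, p.Prime → 1 ≤ a →
      K * ((a : ℝ) + 2) ^ 2 ≤ (if p < P0 then M else 1) * ((p : ℝ) ^ ε) ^ a := by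
    intro p a hp ha
    split_ifs with hpP
    · refine (hsmall a).trans ?_
      have hp2 : (2 : ℝ) ≤ p := by exact_mod_cast hp.two_le
      gcongr
    · rw [one_mul]
      have h1 := hP0 p (by omega)
      calc K * ((a : ℝ) + 2) ^ 2 ≤ K ^ a * 9 ^ a := by
            apply mul_le_mul _ (nine_pow a ha) (by positivity) (by positivity)
            calc K = K ^ 1 := (pow_one K).symm
              _ ≤ K ^ a := pow_le_pow_right₀ hK ha
        _ = (9 * K) ^ a := by rw [← mul_pow, mul_comm]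
        _ ≤ ((p : ℝ) ^ ε) ^ a := by gcongr
  refine ⟨M ^ P0, by positivity, ?_⟩
  intro h hh
  calc ∏ p ∈ h.primeFactors, (K * ((h.factorization p : ℝ) + 2) ^ 2)
      ≤ ∏ p ∈ h.primeFactors, ((if p < P0 then M else 1) * ((p : ℝ) ^ ε) ^ h.factorization p) := by
        apply Finset.prod_le_prod
        · intro p _; positivity
        · intro p hp
          exact hloc p _ (Nat.prime_of_mem_primeFactors hp) (fact_pos h p hp)
    _ = (∏ p ∈ h.primeFactors, if p < P0 then M else 1) *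
          ∏ p ∈ h.primeFactors, ((p : ℝ) ^ ε) ^ h.factorization p := prod_mul_distrib
    _ ≤ M ^ P0 * (h : ℝ) ^ ε := by
        apply mul_le_mul
        · rw [prod_ite, prod_const_one, mul_one, prod_const]
          apply pow_le_pow_right₀ hM1
          calc (h.primeFactors.filter (fun p => p < P0)).card ≤ (range P0).card := by
                apply card_le_card
                intro p hp
                rw [mem_filter] at hp
                exact mem_range.mpr hp.2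
            _ = P0 := card_range P0
        · conv_rhs => rw [cast_self h hh]
          rw [← Real.finsetProd_rpow _ _ (fun i _ => by positivity)]
          apply le_of_eq
          apply prod_congr rfl
          intro p _
          rw [← Real.rpow_natCast, ← Real.rpow_natCast, ← Real.rpow_mul (Nat.cast_nonneg p),
            ← Real.rpow_mul (Nat.cast_nonneg p), mul_comm]
        · exact prod_nonneg fun p _ => by positivity
        · positivity

lemma local_sum_abs (p b : ℕ) (n : ℕ) (hn : b + 3 < n) (f : ℕ → ℝ) :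
    ∑ v ∈ range n, |rloc p (b + 1) v| * f v =
      |rloc p (b + 1) b| * f b + |rloc p (b + 1) (b + 1)| * f (b + 1) +
      |rloc p (b + 1) (b + 2)| * f (b + 2) + |rloc p (b + 1) (b + 3)| * f (b + 3) := by
  have h1 : ∀ v ∈ range n, v ∉ ({b, b + 1, b + 2, b + 3} : Finset ℕ) →
      |rloc p (b + 1) v| * f v = 0 := by
    intro v _ hv
    simp only [mem_insert, mem_singleton, not_or] at hv
    unfold rloc
    rw [if_neg (by omega), if_neg (by omega), if_neg (by omega), if_neg (by omega), abs_zero,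
      zero_mul]
  have h2 : ({b, b + 1, b + 2, b + 3} : Finset ℕ) ⊆ range n := by
    intro v hv
    simp only [mem_insert, mem_singleton] at hv
    rw [mem_range]
    omega
  rw [← sum_subset h2 h1]
  rw [sum_insert (by simp), sum_insert (by simp), sum_insert (by simp), sum_singleton]
  ring

/-- local bound -/
lemma abs_local (p a : ℕ) (hp : p.Prime) (ha : 1 ≤ a) :
    ∑ v ∈ range (3 * a + 1), |rloc p a v| * ((p : ℝ) ^ (-(3 / 4) : ℝ)) ^ v ≤
      7 * ((a : ℝ) + 2) ^ 2 * ((p : ℝ) ^ (-(3 / 4) : ℝ)) ^ a := by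
  obtain ⟨b, rfl⟩ : ∃ b, a = b + 1 := ⟨a - 1, by omega⟩
  rw [local_sum_abs p b _ (by omega), rloc0, rloc1, rloc2, rloc3]
  have hp2 : (2 : ℝ) ≤ p := by exact_mod_cast hp.two_le
  have hp0 : (0 : ℝ) < p := by linarith
  have h1 : (0 : ℝ) < (p : ℝ) - 1 := by linarith
  set y : ℝ := (p : ℝ) ^ (-(3 / 4) : ℝ) with hy
  have hy0 : 0 < y := by positivity
  have hy1 : y ≤ 1 := Real.rpow_le_one_of_one_le_of_nonpos (by linarith) (by norm_num)
  -- `1 ≤ p y`
  have hpy : 1 ≤ p * y := by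
    have h2 : (p : ℝ) * y = (p : ℝ) ^ (1 / 4 : ℝ) := by
      rw [hy]
      conv_lhs => rw [← Real.rpow_one (p : ℝ)]
      rw [← Real.rpow_mul hp0.le, ← Real.rpow_add hp0]
      norm_num
    rw [h2]
    exact Real.one_le_rpow (by linarith) (by norm_num)
  have hq : 1 / ((p : ℝ) - 1) ≤ 2 * y := by
    rw [div_le_iff₀ h1]
    nlinarith
  have hq1 : 1 / ((p : ℝ) - 1) ≤ 1 := by
    rw [div_le_iff₀ h1]
    linarith
  have hq0 : 0 < 1 / ((p : ℝ) - 1) := by positivity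
  set c : ℝ := 1 / ((p : ℝ) - 1) with hc
  have hb : (0 : ℝ) ≤ b := Nat.cast_nonneg b
  have e0 : |-(((b : ℝ) + 1) * (b + 2) / 2) / (p - 1)| = ((b : ℝ) + 1) * (b + 2) / 2 * c := by
    rw [hc, abs_div, abs_neg, abs_of_nonneg (show (0 : ℝ) ≤ ((b : ℝ) + 1) * (b + 2) / 2 by positivity),
      abs_of_pos h1]
    ring
  have e1 : |((b : ℝ) + 2) * (b + 3) / 2 + 3 * (((b : ℝ) + 1) * (b + 2) / 2) / (p - 1)| =
      ((b : ℝ) + 2) * (b + 3) / 2 + 3 * (((b : ℝ) + 1) * (b + 2) / 2) * c := by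
    rw [hc, abs_of_nonneg (by positivity)]
    ring
  have e2 : |-(((b : ℝ) + 1) * (b + 3)) - 3 * (((b : ℝ) + 1) * (b + 2) / 2) / (p - 1)| =
      ((b : ℝ) + 1) * (b + 3) + 3 * (((b : ℝ) + 1) * (b + 2) / 2) * c := by
    rw [hc, ← abs_neg, abs_of_nonneg (by
      have : 0 ≤ ((b : ℝ) + 1) * (b + 3) + 3 * (((b : ℝ) + 1) * (b + 2) / 2) / (p - 1) := by
        positivity
      linarith)]
    ring
  have e3 : |((b : ℝ) + 1) * (b + 2) / 2 + (((b : ℝ) + 1) * (b + 2) / 2) / (p - 1)| =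
      ((b : ℝ) + 1) * (b + 2) / 2 + ((b : ℝ) + 1) * (b + 2) / 2 * c := by
    rw [hc, abs_of_nonneg (by positivity)]
    ring
  rw [e0, e1, e2, e3]
  have hw : 0 < y ^ b := by positivity
  rw [pow_add y b 1, pow_add y b 2, pow_add y b 3]
  push_cast
  generalize y ^ b = w at *
  have hyy : y ^ 2 ≤ y := by nlinarith
  have hyyy : y ^ 3 ≤ y := by nlinarith [sq_nonneg y]
  have ht : 0 ≤ ((b : ℝ) + 1) * (b + 2) / 2 := by positivity
  have hu : 0 ≤ ((b : ℝ) + 2) * (b + 3) / 2 := by positivity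
  have hv : 0 ≤ ((b : ℝ) + 1) * (b + 3) := by positivity
  have i0 : ((b : ℝ) + 1) * (b + 2) / 2 * c * w ≤ ((b : ℝ) + 1) * (b + 2) / 2 * (2 * y) * w := by
    gcongr
  have i1 : (((b : ℝ) + 2) * (b + 3) / 2 + 3 * (((b : ℝ) + 1) * (b + 2) / 2) * c) * (w * y ^ 1) ≤
      (((b : ℝ) + 2) * (b + 3) / 2 + 3 * (((b : ℝ) + 1) * (b + 2) / 2) * 1) * (w * y) := by
    rw [pow_one]
    gcongr
  have i2 : (((b : ℝ) + 1) * (b + 3) + 3 * (((b : ℝ) + 1) * (b + 2) / 2) * c) * (w * y ^ 2) ≤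
      (((b : ℝ) + 1) * (b + 3) + 3 * (((b : ℝ) + 1) * (b + 2) / 2) * 1) * (w * y) := by
    gcongr
  have i3 : (((b : ℝ) + 1) * (b + 2) / 2 + ((b : ℝ) + 1) * (b + 2) / 2 * c) * (w * y ^ 3) ≤
      (((b : ℝ) + 1) * (b + 2) / 2 + ((b : ℝ) + 1) * (b + 2) / 2 * 1) * (w * y) := by
    gcongr
  have hwy : 0 < w * y := by positivity
  calc _ ≤ ((b : ℝ) + 1) * (b + 2) / 2 * (2 * y) * w +
        (((b : ℝ) + 2) * (b + 3) / 2 + 3 * (((b : ℝ) + 1) * (b + 2) / 2) * 1) * (w * y) +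
        (((b : ℝ) + 1) * (b + 3) + 3 * (((b : ℝ) + 1) * (b + 2) / 2) * 1) * (w * y) +
        (((b : ℝ) + 1) * (b + 2) / 2 + ((b : ℝ) + 1) * (b + 2) / 2 * 1) * (w * y) := by
        linarith
    _ = (10 * (((b : ℝ) + 1) * (b + 2) / 2) + ((b : ℝ) + 2) * (b + 3) / 2 +
          ((b : ℝ) + 1) * (b + 3)) * (w * y) := by ring
    _ ≤ (7 * ((b : ℝ) + 1 + 2) ^ 2) * (w * y) := by
        apply mul_le_mul_of_nonneg_right _ hwy.le
        nlinarith
    _ = _ := by ring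

theorem rho_abs (ε : ℝ) (hε : 0 < ε) : ∃ C : ℝ, 0 < C ∧ ∀ h : ℕ, 1 ≤ h →
    ∑ e ∈ (h ^ 3).divisors, |rho h e| * (e : ℝ) ^ (-(3 / 4) : ℝ) ≤ C * (h : ℝ) ^ (-(3 / 4) + ε) := by
  obtain ⟨C, hC, hb⟩ := prod_bound 7 ε (by norm_num) hε
  refine ⟨C, hC, ?_⟩
  intro h hh
  have hh0 : (0 : ℝ) < h := by exact_mod_cast hh
  have h1 : ∑ e ∈ (h ^ 3).divisors, |rho h e| * (e : ℝ) ^ (-(3 / 4) : ℝ) =
      ∏ p ∈ h.primeFactors, ∑ v ∈ range (3 * h.factorization p + 1),
        |rloc p (h.factorization p) v| * ((p : ℝ) ^ (-(3 / 4) : ℝ)) ^ v := by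
    rw [← sum_cube h hh
      (fun p v => |rloc p (h.factorization p) v| * ((p : ℝ) ^ (-(3 / 4) : ℝ)) ^ v)]
    apply sum_congr rfl
    intro e he
    rw [rho_eq h e hh he, abs_prod, prod_mul_distrib]
    congr 1
    conv_lhs => rw [cast_eq_prod h e hh he]
    rw [← Real.finsetProd_rpow _ _ (fun i _ => by positivity)]
    apply prod_congr rfl
    intro p _
    rw [← Real.rpow_natCast, ← Real.rpow_natCast, ← Real.rpow_mul (Nat.cast_nonneg p),
      ← Real.rpow_mul (Nat.cast_nonneg p), mul_comm]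
  rw [h1]
  calc _ ≤ ∏ p ∈ h.primeFactors, (7 * ((h.factorization p : ℝ) + 2) ^ 2 *
        ((p : ℝ) ^ (-(3 / 4) : ℝ)) ^ h.factorization p) := by
        apply Finset.prod_le_prod
        · intro p _
          exact sum_nonneg fun v _ => by positivity
        · intro p hp
          exact abs_local p _ (Nat.prime_of_mem_primeFactors hp) (fact_pos h p hp)
    _ = (∏ p ∈ h.primeFactors, (7 * ((h.factorization p : ℝ) + 2) ^ 2)) *
        (h : ℝ) ^ (-(3 / 4) : ℝ) := by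
        rw [prod_mul_distrib]
        congr 1
        conv_rhs => rw [cast_self h hh]
        rw [← Real.finsetProd_rpow _ _ (fun i _ => by positivity)]
        apply prod_congr rfl
        intro p _
        rw [← Real.rpow_natCast, ← Real.rpow_natCast, ← Real.rpow_mul (Nat.cast_nonneg p),
          ← Real.rpow_mul (Nat.cast_nonneg p), mul_comm]
    _ ≤ (C * (h : ℝ) ^ ε) * (h : ℝ) ^ (-(3 / 4) : ℝ) := by
        apply mul_le_mul_of_nonneg_right (hb h hh) (by positivity)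
    _ = C * (h : ℝ) ^ (-(3 / 4) + ε) := by
        rw [mul_assoc, ← Real.rpow_add hh0, add_comm ε]

end Pool.Agent.H851R2.SM
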