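import Pool.Agent.H306R2.SM.Defs

set_option autoImplicit false

/-! Tasks T9b2, T9b4, T9b5 of `h306_tasks`: sums over the divisors of `h ^ 3` with a product
structure. -/

namespace Pool.Agent.H851R2.SM

open Finset Pool.Agent.H306R2 Pool.Agent.H306R2.SM

lemma fact_prod (S : Finset ℕ) (hS : ∀ p ∈ S, p.Prime) (F : ℕ → ℕ) (q : ℕ) :
    (∏ p ∈ S, p ^ F p).factorization q = if q ∈ S then F q else 0 := by
  induction S using Finset.induction_on with
  | empty => simp
  | insert a s ha ih =>
    have h1 : a.Prime := hS a (mem_insert_self _ _)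
    have h2 : ∀ p ∈ s, p.Prime := fun p hp => hS p (mem_insert_of_mem hp)
    have h3 : ∏ p ∈ s, p ^ F p ≠ 0 :=
      prod_ne_zero_iff.mpr fun p hp => pow_ne_zero _ (h2 p hp).ne_zero
    rw [prod_insert ha, Nat.factorization_mul (pow_ne_zero _ h1.ne_zero) h3, Finsupp.add_apply,
      ih h2, h1.factorization_pow, Finsupp.single_apply]
    by_cases hq : q ∈ s
    · have hne : a ≠ q := fun h => ha (h ▸ hq)
      simp [hq, hne]
    · by_cases hqa : q = a
      · subst hqa
        simp [hq]
      · have hne : a ≠ q := fun h => hqa h.symm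
        simp [hq, hqa, hne]

/-- sums over divisors of functions of product type -/
lemma sum_div_prod {R : Type*} [CommSemiring R] (N : ℕ) (hN : N ≠ 0) (g : ℕ → ℕ → R) :
    ∑ e ∈ N.divisors, ∏ p ∈ N.primeFactors, g p (e.factorization p) =
      ∏ p ∈ N.primeFactors, ∑ v ∈ range (N.factorization p + 1), g p v := by
  rw [Finset.prod_sum]
  have hS : ∀ p ∈ N.primeFactors, p.Prime := fun p hp => Nat.prime_of_mem_primeFactors hp
  refine Finset.sum_bij' (fun e _ => fun p _ => e.factorization p)
    (fun f _ => ∏ p ∈ N.primeFactors, p ^ (if hp : p ∈ N.primeFactors then f p hp else 0))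
    ?_ ?_ ?_ ?_ ?_
  · intro e he
    rw [Nat.mem_divisors] at he
    rw [Finset.mem_pi]
    intro p hp
    rw [mem_range, Nat.lt_succ_iff]
    exact (Nat.factorization_le_iff_dvd (ne_zero_of_dvd_ne_zero hN he.1) hN).mpr he.1 p
  · intro f hf
    rw [Finset.mem_pi] at hf
    rw [Nat.mem_divisors]
    refine ⟨?_, hN⟩
    have h0 : ∏ p ∈ N.primeFactors, p ^ (if hp : p ∈ N.primeFactors then f p hp else 0) ≠ 0 :=
      prod_ne_zero_iff.mpr fun p hp => pow_ne_zero _ (hS p hp).ne_zero
    rw [← Nat.factorization_le_iff_dvd h0 hN]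
    intro q
    rw [fact_prod _ hS]
    by_cases hq : q ∈ N.primeFactors
    · rw [if_pos hq, dif_pos hq]
      have := hf q hq
      rw [mem_range] at this
      omega
    · rw [if_neg hq]
      exact Nat.zero_le _
  · intro e he
    rw [Nat.mem_divisors] at he
    have he0 : e ≠ 0 := ne_zero_of_dvd_ne_zero hN he.1
    have h1 : ∏ p ∈ N.primeFactors, p ^ (if hp : p ∈ N.primeFactors then e.factorization p else 0) =
        ∏ p ∈ N.primeFactors, p ^ e.factorization p := by
      apply prod_congr rfl
      intro p hp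
      rw [dif_pos hp]
    rw [h1]
    apply Nat.eq_of_factorization_eq
    · exact prod_ne_zero_iff.mpr fun p hp => pow_ne_zero _ (hS p hp).ne_zero
    · exact he0
    · intro q
      rw [fact_prod _ hS]
      by_cases hq : q ∈ N.primeFactors
      · rw [if_pos hq]
      · rw [if_neg hq]
        symm
        rw [← Finsupp.notMem_support_iff, Nat.support_factorization]
        exact fun h => hq (Nat.primeFactors_mono he.1 hN h)
  · intro f hf
    funext p hp
    rw [fact_prod _ hS, if_pos hp, dif_pos hp]
  · intro e he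
    exact (Finset.prod_attach N.primeFactors (fun p => g p (e.factorization p))).symm

end Pool.Agent.H851R2.SM
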