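import Pool.Agent.H851R2.SM.RhoA

set_option autoImplicit false

/-! Tasks T9b2, T9b4, T9b5 of `h306_tasks`: local sums of `rloc`. -/

namespace Pool.Agent.H851R2.SM

open Finset Pool.Agent.H306R2 Pool.Agent.H306R2.SM

/-- sums over the divisors of `h ^ 3` -/
lemma sum_cube {R : Type*} [CommSemiring R] (h : ℕ) (hh : 1 ≤ h) (g : ℕ → ℕ → R) :
    ∑ e ∈ (h ^ 3).divisors, ∏ p ∈ h.primeFactors, g p (e.factorization p) =
      ∏ p ∈ h.primeFactors, ∑ v ∈ range (3 * h.factorization p + 1), g p v := by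
  have h0 : h ≠ 0 := by omega
  have h1 := sum_div_prod (R := R) (h ^ 3) (pow_ne_zero _ h0) g
  rw [Nat.primeFactors_pow h (by norm_num)] at h1
  rw [h1]
  apply prod_congr rfl
  intro p _
  rw [Nat.factorization_pow]
  rfl

lemma primeFactors_sub (h e : ℕ) (hh : 1 ≤ h) (he : e ∈ (h ^ 3).divisors) :
    e ≠ 0 ∧ e.primeFactors ⊆ h.primeFactors := by
  have h0 : h ≠ 0 := by omega
  rw [Nat.mem_divisors] at he
  refine ⟨ne_zero_of_dvd_ne_zero he.2 he.1, ?_⟩
  have := Nat.primeFactors_mono he.1 he.2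
  rwa [Nat.primeFactors_pow h (by norm_num)] at this

lemma rho_eq (h e : ℕ) (hh : 1 ≤ h) (he : e ∈ (h ^ 3).divisors) :
    rho h e = ∏ p ∈ h.primeFactors, rloc p (h.factorization p) (e.factorization p) := by
  unfold rho
  rw [if_pos (primeFactors_sub h e hh he)]

/-- factorisation over a larger set of primes -/
lemma eq_prod_pow (e : ℕ) (he : e ≠ 0) (S : Finset ℕ) (hS : e.primeFactors ⊆ S) :
    e = ∏ p ∈ S, p ^ e.factorization p := by
  have h1 : ∏ p ∈ e.primeFactors, p ^ e.factorization p = ∏ p ∈ S, p ^ e.factorization p := by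
    apply prod_subset hS
    intro p _ hp
    rw [← Nat.support_factorization, Finsupp.notMem_support_iff] at hp
    rw [hp, pow_zero]
  rw [← h1]
  exact (Nat.prod_factorization_pow_eq_self he).symm

lemma cast_eq_prod (h e : ℕ) (hh : 1 ≤ h) (he : e ∈ (h ^ 3).divisors) :
    (e : ℝ) = ∏ p ∈ h.primeFactors, (p : ℝ) ^ e.factorization p := by
  obtain ⟨h1, h2⟩ := primeFactors_sub h e hh he
  conv_lhs => rw [eq_prod_pow e h1 _ h2]
  push_cast
  rfl

lemma log_eq_sum (e : ℕ) (he : e ≠ 0) (S : Finset ℕ) (hS : e.primeFactors ⊆ S)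
    (hS' : ∀ p ∈ S, p.Prime) :
    Real.log e = ∑ p ∈ S, (e.factorization p : ℝ) * Real.log p := by
  conv_lhs => rw [eq_prod_pow e he S hS]
  push_cast
  rw [Real.log_prod]
  · apply sum_congr rfl
    intro p _
    rw [Real.log_pow]
  · intro p hp
    exact pow_ne_zero _ (by exact_mod_cast (hS' p hp).ne_zero)

/-- local sum -/
lemma local_sum (p b : ℕ) (n : ℕ) (hn : b + 3 < n) (f : ℕ → ℝ) :
    ∑ v ∈ range n, rloc p (b + 1) v * f v =
      rloc p (b + 1) b * f b + rloc p (b + 1) (b + 1) * f (b + 1) +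
      rloc p (b + 1) (b + 2) * f (b + 2) + rloc p (b + 1) (b + 3) * f (b + 3) := by
  have h1 : ∀ v ∈ range n, v ∉ ({b, b + 1, b + 2, b + 3} : Finset ℕ) →
      rloc p (b + 1) v * f v = 0 := by
    intro v _ hv
    simp only [mem_insert, mem_singleton, not_or] at hv
    unfold rloc
    rw [if_neg (by omega), if_neg (by omega), if_neg (by omega), if_neg (by omega), zero_mul]
  have h2 : ({b, b + 1, b + 2, b + 3} : Finset ℕ) ⊆ range n := by
    intro v hv
    simp only [mem_insert, mem_singleton] at hv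
    rw [mem_range]
    omega
  rw [← sum_subset h2 h1]
  rw [sum_insert (by simp), sum_insert (by simp), sum_insert (by simp), sum_singleton]
  ring

lemma rloc0 (p b : ℕ) : rloc p (b + 1) b = -(((b : ℝ) + 1) * (b + 2) / 2) / (p - 1) := by
  unfold rloc
  rw [if_pos rfl]
  push_cast
  ring

lemma rloc1 (p b : ℕ) : rloc p (b + 1) (b + 1) =
    ((b : ℝ) + 2) * (b + 3) / 2 + 3 * (((b : ℝ) + 1) * (b + 2) / 2) / (p - 1) := by
  unfold rloc
  rw [if_neg (by omega), if_pos rfl]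
  push_cast
  ring

lemma rloc2 (p b : ℕ) : rloc p (b + 1) (b + 2) =
    -(((b : ℝ) + 1) * (b + 3)) - 3 * (((b : ℝ) + 1) * (b + 2) / 2) / (p - 1) := by
  unfold rloc
  rw [if_neg (by omega), if_neg (by omega), if_pos (by omega)]
  push_cast
  ring

lemma rloc3 (p b : ℕ) : rloc p (b + 1) (b + 3) =
    ((b : ℝ) + 1) * (b + 2) / 2 + (((b : ℝ) + 1) * (b + 2) / 2) / (p - 1) := by
  unfold rloc
  rw [if_neg (by omega), if_neg (by omega), if_neg (by omega), if_pos (by omega)]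
  push_cast
  ring

/-- local factors -/
noncomputable def b0 (z a : ℝ) : ℝ := 1 + a * (1 - z)
noncomputable def b1 (z a : ℝ) : ℝ := a * (a + 1) / 2 * (1 + z) - a * (a + 2) * z
noncomputable def b2 (z a : ℝ) : ℝ := -(a * (a + 1) / 2 * (1 + z)) - a * (a + 2) * z

lemma R_zero (p a : ℕ) (hp : p.Prime) (ha : 1 ≤ a) :
    ∑ v ∈ range (3 * a + 1), rloc p a v * (1 / (p : ℝ)) ^ v =
      (1 / (p : ℝ)) ^ a * b0 (1 / p) a := by
  obtain ⟨b, rfl⟩ : ∃ b, a = b + 1 := ⟨a - 1, by omega⟩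
  rw [local_sum p b _ (by omega), rloc0, rloc1, rloc2, rloc3]
  have hp2 : (2 : ℝ) ≤ p := by exact_mod_cast hp.two_le
  have h1 : (p : ℝ) - 1 ≠ 0 := by linarith
  have h2 : (p : ℝ) ≠ 0 := by linarith
  unfold b0
  push_cast
  rw [pow_add (1 / (p : ℝ)) b 1, pow_add (1 / (p : ℝ)) b 2, pow_add (1 / (p : ℝ)) b 3]
  generalize (1 / (p : ℝ)) ^ b = w
  generalize (p : ℝ) = x at *
  generalize (b : ℝ) = y at *
  field_simp
  ring

lemma R_one (p a : ℕ) (hp : p.Prime) (ha : 1 ≤ a) :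
    ∑ v ∈ range (3 * a + 1), rloc p a v * ((v : ℝ) * (1 / (p : ℝ)) ^ v) =
      (1 / (p : ℝ)) ^ a * (a * b0 (1 / p) a + b1 (1 / p) a) := by
  obtain ⟨b, rfl⟩ : ∃ b, a = b + 1 := ⟨a - 1, by omega⟩
  rw [local_sum p b _ (by omega), rloc0, rloc1, rloc2, rloc3]
  have hp2 : (2 : ℝ) ≤ p := by exact_mod_cast hp.two_le
  have h1 : (p : ℝ) - 1 ≠ 0 := by linarith
  have h2 : (p : ℝ) ≠ 0 := by linarith
  unfold b0 b1
  push_cast
  rw [pow_add (1 / (p : ℝ)) b 1, pow_add (1 / (p : ℝ)) b 2, pow_add (1 / (p : ℝ)) b 3]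
  generalize (1 / (p : ℝ)) ^ b = w
  generalize (p : ℝ) = x at *
  generalize (b : ℝ) = y at *
  field_simp
  ring

lemma R_two (p a : ℕ) (hp : p.Prime) (ha : 1 ≤ a) :
    ∑ v ∈ range (3 * a + 1), rloc p a v * ((v : ℝ) ^ 2 * (1 / (p : ℝ)) ^ v) =
      (1 / (p : ℝ)) ^ a * (a ^ 2 * b0 (1 / p) a + 2 * a * b1 (1 / p) a + b2 (1 / p) a) := by
  obtain ⟨b, rfl⟩ : ∃ b, a = b + 1 := ⟨a - 1, by omega⟩
  rw [local_sum p b _ (by omega), rloc0, rloc1, rloc2, rloc3]
  have hp2 : (2 : ℝ) ≤ p := by exact_mod_cast hp.two_le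
  have h1 : (p : ℝ) - 1 ≠ 0 := by linarith
  have h2 : (p : ℝ) ≠ 0 := by linarith
  unfold b0 b1 b2
  push_cast
  rw [pow_add (1 / (p : ℝ)) b 1, pow_add (1 / (p : ℝ)) b 2, pow_add (1 / (p : ℝ)) b 3]
  generalize (1 / (p : ℝ)) ^ b = w
  generalize (p : ℝ) = x at *
  generalize (b : ℝ) = y at *
  field_simp
  ring

end Pool.Agent.H851R2.SM
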